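import Pool.Agent.Q38.LH.DATA3

/-! PROJECT LH (helper63): JOB DATA, Fourier transform of an `H¹` field. -/

set_option autoImplicit false

open MeasureTheory Set Filter
open scoped FourierTransform ContDiff RealInnerProductSpace ComplexConjugate ENNReal Topology SchwartzMap LineDeriv

namespace Pool.Agent.Q38.LH.DATA

open Pool.Agent.W785.QR (E conv Phi sy nl phat vel pres)
open Pool.Agent.Q63.LH
open Pool.Agent.Q38.LH.PLA

theorem inner_velE (v : E) (f : Fin 3 → E → ℂ) (x : E) :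
    ⟪v, velE f x⟫ = ∑ j, v j * ((𝓕⁻ (f j) : E → ℂ) x).re := by
  rw [PiLp.inner_apply]
  refine Finset.sum_congr rfl fun j _ => ?_
  simp [velE, mul_comm]

theorem fd_pair {w : E → E} {G : E → E →L[ℝ] E} (h : H1 w G) (f : Fin 3 → E → ℂ)
    (hi : ∀ j, Integrable (f j)) (h2 : ∀ j, Integrable fun ξ => ‖f j ξ‖ ^ 2) :
    Integrable (fun x => ⟪w x, velE f x⟫) ∧
    ∫ x, ⟪w x, velE f x⟫ = ∫ ξ, (∑ j, conj (b h.l2 j ξ) * f j ξ).re := by
  have hp := fun j => T_pair (cp w j) (cp_memLp h.l2 j) (f j) (hi j) (h2 j)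
  have e0 : (fun x => ⟪w x, velE f x⟫) = fun x => ∑ j, cp w j x * ((𝓕⁻ (f j) : E → ℂ) x).re := by
    funext x
    exact inner_velE _ _ _
  have e1 : ∀ j, (fun ξ => conj (b h.l2 j ξ) * f j ξ) =ᵐ[volume]
      fun ξ => conj ((T (cp w j) (cp_memLp h.l2 j) : E → ℂ) ξ) * f j ξ := by
    intro j
    filter_upwards [b_ae h j] with ξ hξ
    rw [hξ]
    rfl
  have i1 : ∀ j, Integrable (fun ξ => conj (b h.l2 j ξ) * f j ξ) := fun j =>
    (hp j).2.1.congr (e1 j).symm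
  refine ⟨?_, ?_⟩
  · rw [e0]
    exact integrable_finsetSum _ fun j _ => (hp j).1
  · rw [e0, integral_finsetSum _ fun j _ => (hp j).1]
    have e2 : ∀ ξ, (∑ j, conj (b h.l2 j ξ) * f j ξ).re = ∑ j, (conj (b h.l2 j ξ) * f j ξ).re := by
      intro ξ
      rw [Complex.re_sum]
    simp_rw [e2]
    have i3 : ∀ j, Integrable (fun ξ => (conj (b h.l2 j ξ) * f j ξ).re) := fun j => (i1 j).re
    rw [integral_finsetSum _ fun j _ => i3 j]
    refine Finset.sum_congr rfl fun j _ => ?_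
    rw [(hp j).2.2, ← integral_congr_ae (e1 j)]
    have := integral_re (i1 j)
    simp only [RCLike.re_to_complex] at this
    rw [← this]

theorem fd_gpair {w : E → E} {G : E → E →L[ℝ] E} (h : H1 w G) (f : Fin 3 → E → ℂ)
    (hm : ∀ j, Measurable (f j)) (hi : ∀ j, Integrable fun ξ => (1 + ‖ξ‖) * ‖f j ξ‖)
    (h2 : ∀ j, Integrable fun ξ => ((1 + ‖ξ‖) * ‖f j ξ‖) ^ 2) :
    Integrable (fun x => ∑ i, ⟪G x (ee i), fderiv ℝ (velE f) x (ee i)⟫) ∧
    ∫ x, ∑ i, ⟪G x (ee i), fderiv ℝ (velE f) x (ee i)⟫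
      = 4 * Real.pi ^ 2 * ∫ ξ, ‖ξ‖ ^ 2 * (∑ j, conj (b h.l2 j ξ) * f j ξ).re := by
  -- integrability
  have a1 : ∀ j, Integrable (f j) := fun j => by
    refine (hi j).mono' (hm j).aestronglyMeasurable (Eventually.of_forall fun ξ => ?_)
    nlinarith [norm_nonneg ξ, norm_nonneg (f j ξ), mul_nonneg (norm_nonneg ξ) (norm_nonneg (f j ξ))]
  have a2 : ∀ j, Integrable fun ξ => ‖ξ‖ * ‖f j ξ‖ := fun j => by
    refine (hi j).mono' ((measurable_norm.mul (hm j).norm).aestronglyMeasurable)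
      (Eventually.of_forall fun ξ => ?_)
    rw [Real.norm_eq_abs, abs_of_nonneg (by positivity)]
    nlinarith [norm_nonneg ξ, norm_nonneg (f j ξ), mul_nonneg (norm_nonneg ξ) (norm_nonneg (f j ξ))]
  obtain ⟨F, hF⟩ : ∃ F : Fin 3 → Fin 3 → E → ℂ,
      F = fun i j ξ => 2 * (Real.pi : ℂ) * Complex.I * ((ξ i : ℝ) : ℂ) * f j ξ := ⟨_, rfl⟩
  have Fm : ∀ i j, Measurable (F i j) := fun i j => by
    rw [hF]
    refine Measurable.mul ?_ (hm j)
    have : Continuous fun ξ : E => 2 * (Real.pi : ℂ) * Complex.I * ((ξ i : ℝ) : ℂ) := by fun_prop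
    exact this.measurable
  have Fn : ∀ i j ξ, ‖F i j ξ‖ ≤ 2 * Real.pi * ((1 + ‖ξ‖) * ‖f j ξ‖) := fun i j ξ => by
    have h4 : |ξ i| ≤ ‖ξ‖ := by
      rw [← Real.norm_eq_abs]; exact PiLp.norm_apply_le ξ i
    rw [hF]
    simp only [norm_mul, Complex.norm_I, Complex.norm_real, Complex.norm_ofNat, Real.norm_eq_abs,
      mul_one, abs_of_pos Real.pi_pos]
    have h5 := Real.pi_pos
    rw [mul_assoc]
    have h6 : |ξ i| ≤ 1 + ‖ξ‖ := by linarith
    gcongr
  have F1 : ∀ i j, Integrable (F i j) := fun i j =>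
    ((hi j).const_mul (2 * Real.pi)).mono' (Fm i j).aestronglyMeasurable
      (Eventually.of_forall (Fn i j))
  have F2 : ∀ i j, Integrable (fun ξ => ‖F i j ξ‖ ^ 2) := fun i j => by
    refine ((h2 j).const_mul ((2 * Real.pi) ^ 2)).mono'
      ((Fm i j).norm.pow_const 2).aestronglyMeasurable (Eventually.of_forall fun ξ => ?_)
    rw [Real.norm_eq_abs, abs_of_nonneg (by positivity), ← mul_pow]
    exact pow_le_pow_left₀ (norm_nonneg _) (Fn i j ξ) 2
  -- derivative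
  have dv : ∀ i x, fderiv ℝ (velE f) x (ee i) = velE (F i) x := by
    intro i x
    have d0 : ∀ j, HasFDerivAt (fun y => ((𝓕⁻ (f j) : E → ℂ) y).re)
        (Complex.reCLM.comp (fderiv ℝ (𝓕⁻ (f j) : E → ℂ) x)) x := fun j =>
      (Complex.reCLM.hasFDerivAt).comp x ((deriv_inv (f j) (a1 j) (a2 j) x).1.hasFDerivAt)
    have d1 : HasFDerivAt (velE f) ((PiLp.continuousLinearEquiv 2 ℝ (fun _ : Fin 3 => ℝ)).symm.toContinuousLinearMap.comp
        (ContinuousLinearMap.pi fun j => Complex.reCLM.comp (fderiv ℝ (𝓕⁻ (f j) : E → ℂ) x))) x := by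
      have d2 : HasFDerivAt (fun y => fun j => ((𝓕⁻ (f j) : E → ℂ) y).re)
          (ContinuousLinearMap.pi fun j => Complex.reCLM.comp (fderiv ℝ (𝓕⁻ (f j) : E → ℂ) x)) x :=
        hasFDerivAt_pi.2 d0
      exact ((PiLp.continuousLinearEquiv 2 ℝ (fun _ : Fin 3 => ℝ)).symm.toContinuousLinearMap.hasFDerivAt).comp x d2
    rw [d1.fderiv]
    ext j
    show ((fderiv ℝ (𝓕⁻ (f j) : E → ℂ) x) (ee i)).re = ((𝓕⁻ (F i j) : E → ℂ) x).re
    rw [(deriv_inv (f j) (a1 j) (a2 j) x).2 (ee i), hF]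
    simp_rw [inner_ee]
  have hp := fun i j => T_pair (gp G i j) (gp_memLp h.g2 i j) (F i j) (F1 i j) (F2 i j)
  have e0 : (fun x => ∑ i, ⟪G x (ee i), fderiv ℝ (velE f) x (ee i)⟫)
      = fun x => ∑ i, ∑ j, gp G i j x * ((𝓕⁻ (F i j) : E → ℂ) x).re := by
    funext x
    refine Finset.sum_congr rfl fun i _ => ?_
    rw [dv, inner_velE]
    rfl
  have e1 : ∀ i j, (fun ξ : E => 4 * Real.pi ^ 2 * (((ξ i : ℝ) : ℂ) ^ 2 * (conj (b h.l2 j ξ) * f j ξ)))
      =ᵐ[volume] fun ξ => conj ((T (gp G i j) (gp_memLp h.g2 i j) : E → ℂ) ξ) * F i j ξ := by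
    intro i j
    filter_upwards [b_ae h j, B_deriv h i j] with ξ h3 h4
    rw [h4, h3, hF]
    simp only [map_mul, Complex.conj_ofReal, Complex.conj_I, map_ofNat]
    linear_combination (4 * (Real.pi : ℂ) ^ 2 * ((ξ i : ℝ) : ℂ) ^ 2 * conj (B h.l2 j ξ) * f j ξ) *
      Complex.I_sq
  have i1 : ∀ i j, Integrable (fun ξ : E => (4 * Real.pi ^ 2 : ℂ) *
      (((ξ i : ℝ) : ℂ) ^ 2 * (conj (b h.l2 j ξ) * f j ξ))) :=
    fun i j => (hp i j).2.1.congr (e1 i j).symm
  refine ⟨?_, ?_⟩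
  · rw [e0]
    exact integrable_finsetSum _ fun i _ => integrable_finsetSum _ fun j _ => (hp i j).1
  · rw [e0, integral_finsetSum _ fun i _ => integrable_finsetSum _ fun j _ => (hp i j).1]
    have e2 : ∀ i, ∫ x, ∑ j, gp G i j x * ((𝓕⁻ (F i j) : E → ℂ) x).re
        = ∑ j, ∫ ξ : E, ((4 * Real.pi ^ 2 : ℂ) *
          (((ξ i : ℝ) : ℂ) ^ 2 * (conj (b h.l2 j ξ) * f j ξ))).re := by
      intro i
      rw [integral_finsetSum _ fun j _ => (hp i j).1]
      refine Finset.sum_congr rfl fun j _ => ?_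
      rw [(hp i j).2.2, ← integral_congr_ae (e1 i j)]
      have := integral_re (i1 i j)
      simp only [RCLike.re_to_complex] at this
      rw [← this]
    simp_rw [e2]
    have i2 : ∀ i j, Integrable (fun ξ : E => ((4 * Real.pi ^ 2 : ℂ) *
      (((ξ i : ℝ) : ℂ) ^ 2 * (conj (b h.l2 j ξ) * f j ξ))).re) := fun i j => (i1 i j).re
    rw [← integral_const_mul]
    have e3 : ∀ i, ∑ j, ∫ ξ : E, ((4 * Real.pi ^ 2 : ℂ) *
          (((ξ i : ℝ) : ℂ) ^ 2 * (conj (b h.l2 j ξ) * f j ξ))).re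
        = ∫ ξ : E, ∑ j, ((4 * Real.pi ^ 2 : ℂ) *
          (((ξ i : ℝ) : ℂ) ^ 2 * (conj (b h.l2 j ξ) * f j ξ))).re := fun i =>
      (integral_finsetSum _ fun j _ => i2 i j).symm
    simp_rw [e3]
    rw [← integral_finsetSum _ fun i _ => integrable_finsetSum _ fun j _ => i2 i j]
    refine integral_congr_ae (Eventually.of_forall fun ξ => ?_)
    beta_reduce
    have e4 : ∀ (r : ℝ) (z : ℂ), ((4 * Real.pi ^ 2 : ℂ) * (((r : ℝ) : ℂ) ^ 2 * z)).re
        = 4 * Real.pi ^ 2 * (r ^ 2 * z.re) := by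
      intro r z
      have : ((4 * Real.pi ^ 2 : ℂ) * (((r : ℝ) : ℂ) ^ 2 * z))
          = ((4 * Real.pi ^ 2 * r ^ 2 : ℝ) : ℂ) * z := by
        push_cast; ring
      rw [this, Complex.re_ofReal_mul]
      ring
    simp_rw [e4]
    rw [norm_sq_E, Complex.re_sum, Finset.sum_mul, Finset.mul_sum]
    refine Finset.sum_congr rfl fun i _ => ?_
    rw [Finset.mul_sum, Finset.mul_sum]

theorem proof_data : S_DATA := by
  intro w G h
  refine ⟨b h.l2, ?_⟩
  have isum : Integrable (fun ξ => ∑ j, ‖b h.l2 j ξ‖ ^ 2) :=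
    integrable_finsetSum _ fun j _ => (b_sq h j).1
  have gsum : ∀ i j, Integrable (fun ξ : E => ξ i ^ 2 * ‖b h.l2 j ξ‖ ^ 2) := fun i j => by
    have := (g_sq h i j).1.const_mul (4 * Real.pi ^ 2)⁻¹
    refine this.congr (Eventually.of_forall fun ξ => ?_)
    have hpi : (4 * Real.pi ^ 2) ≠ 0 := by positivity
    field_simp
  have gs : Integrable (fun ξ : E => ‖ξ‖ ^ 2 * ∑ j, ‖b h.l2 j ξ‖ ^ 2) := by
    have : (fun ξ : E => ‖ξ‖ ^ 2 * ∑ j, ‖b h.l2 j ξ‖ ^ 2)
        = fun ξ => ∑ i, ∑ j, ξ i ^ 2 * ‖b h.l2 j ξ‖ ^ 2 := by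
      funext ξ
      rw [norm_sq_E, Finset.sum_mul]
      refine Finset.sum_congr rfl fun i _ => ?_
      rw [Finset.mul_sum]
    rw [this]
    exact integrable_finsetSum _ fun i _ => integrable_finsetSum _ fun j _ => gsum i j
  constructor
  · exact b_meas h.l2
  · exact b_herm h.l2
  · exact b_div h.l2
  · have mm : Measurable (fun ξ : E => (1 + ‖ξ‖) ^ 2 * ∑ j, ‖b h.l2 j ξ‖ ^ 2) := by
      refine Measurable.mul (by fun_prop) (Finset.measurable_sum _ fun j _ => ?_)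
      exact (b_meas h.l2 j).norm.pow_const 2
    refine ((isum.const_mul 2).add (gs.const_mul 2)).mono' mm.aestronglyMeasurable
      (Eventually.of_forall fun ξ => ?_)
    have hs : 0 ≤ ∑ j, ‖b h.l2 j ξ‖ ^ 2 := Finset.sum_nonneg fun j _ => by positivity
    rw [Real.norm_eq_abs, abs_of_nonneg (by positivity)]
    simp only [Pi.add_apply]
    nlinarith [mul_nonneg (sq_nonneg (‖ξ‖ - 1)) hs]
  · have e1 : ∀ x, ‖w x‖ ^ 2 = ∑ j, cp w j x ^ 2 := fun x => norm_sq_E _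
    simp_rw [e1]
    rw [integral_finsetSum _ fun j _ => (cp_memLp h.l2 j).integrable_sq,
      integral_finsetSum _ fun j _ => (b_sq h j).1]
    exact Finset.sum_congr rfl fun j _ => (b_sq h j).2
  · have e1 : ∀ x, HS (G x) = ∑ i, ∑ j, gp G i j x ^ 2 := fun x => by
      unfold HS
      refine Finset.sum_congr rfl fun i _ => ?_
      rw [norm_sq_E]
      rfl
    simp_rw [e1]
    rw [integral_finsetSum _ fun i _ => integrable_finsetSum _ fun j _ =>
      (gp_memLp h.g2 i j).integrable_sq]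
    have e2 : ∀ i, ∫ x, ∑ j, gp G i j x ^ 2
        = ∫ ξ : E, ∑ j, 4 * Real.pi ^ 2 * (ξ i ^ 2 * ‖b h.l2 j ξ‖ ^ 2) := by
      intro i
      rw [integral_finsetSum _ fun j _ => (gp_memLp h.g2 i j).integrable_sq,
        integral_finsetSum _ fun j _ => (g_sq h i j).1]
      exact Finset.sum_congr rfl fun j _ => (g_sq h i j).2
    simp_rw [e2]
    rw [← integral_finsetSum _ fun i _ => integrable_finsetSum _ fun j _ => (g_sq h i j).1,
      ← integral_const_mul]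
    refine integral_congr_ae (Eventually.of_forall fun ξ => ?_)
    beta_reduce
    rw [norm_sq_E, Finset.sum_mul, Finset.mul_sum]
    refine Finset.sum_congr rfl fun i _ => ?_
    rw [Finset.mul_sum, Finset.mul_sum]
  · intro f _ hi h2 _
    exact fd_pair h f hi h2
  · intro f hm hi h2 _
    exact fd_gpair h f hm hi h2

end Pool.Agent.Q38.LH.DATA
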