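import Pool.Agent.Q38.LH.PLA

/-! PROJECT LH (helper63): JOB DATA, part 1: scalar functions. -/

set_option autoImplicit false

open MeasureTheory Set Filter
open scoped FourierTransform ContDiff RealInnerProductSpace ComplexConjugate ENNReal Topology SchwartzMap

namespace Pool.Agent.Q38.LH.DATA

open Pool.Agent.W785.QR (E conv Phi sy nl phat vel pres)
open Pool.Agent.Q63.LH
open Pool.Agent.Q38.LH.PLA

/-- complexification -/
def cx (u : E → ℝ) (x : E) : ℂ := (u x : ℂ)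

theorem memLp_cx {u : E → ℝ} (hu : MemLp u 2 volume) : MemLp (cx u) 2 volume := hu.ofReal

/-- the `L²` Fourier transform of a real function -/
noncomputable def T (u : E → ℝ) (hu : MemLp u 2 volume) : Lp ℂ 2 (volume : Measure E) :=
  𝓕 ((memLp_cx hu).toLp (cx u))

theorem T_pair (u : E → ℝ) (hu : MemLp u 2 volume) (f : E → ℂ) (hf : Integrable f)
    (hf2 : Integrable fun ξ => ‖f ξ‖ ^ 2) :
    Integrable (fun x => u x * ((𝓕⁻ f : E → ℂ) x).re) ∧
    Integrable (fun ξ => conj ((T u hu : E → ℂ) ξ) * f ξ) ∧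
    ∫ x, u x * ((𝓕⁻ f : E → ℂ) x).re = (∫ ξ, conj ((T u hu : E → ℂ) ξ) * f ξ).re := by
  have mf : MemLp f 2 volume := (memLp_two_iff_integrable_sq_norm hf.1).2 hf2
  have h1 := inv_ae f hf mf
  have m1 : MemLp (𝓕⁻ f : E → ℂ) 2 volume := (memLp_congr_ae h1).1 (Lp.memLp _)
  have i1 : Integrable (fun x => (u x : ℂ) * (𝓕⁻ f : E → ℂ) x) := (memLp_cx hu).integrable_mul m1
  have i2 : Integrable (fun ξ => conj ((T u hu : E → ℂ) ξ) * f ξ) :=
    (Lp.memLp (T u hu)).star.integrable_mul mf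
  refine ⟨?_, i2, ?_⟩
  · refine i1.re.congr (Eventually.of_forall fun x => ?_)
    simp
  · have e1 : inner ℂ ((memLp_cx hu).toLp (cx u)) (𝓕⁻ (mf.toLp f) : Lp ℂ 2 (volume : Measure E))
        = inner ℂ (T u hu) (mf.toLp f) := by
      rw [← Lp.inner_fourier_eq]
      simp [T, FourierTransform.fourier_fourierInv_eq]
    rw [inner_lp _ _ _ _ (memLp_cx hu).coeFn_toLp h1,
      inner_lp _ _ _ _ (Filter.EventuallyEq.refl _ _) mf.coeFn_toLp] at e1
    rw [← e1]
    have e2 : ∀ x, conj (cx u x) * (𝓕⁻ f : E → ℂ) x = (u x : ℂ) * (𝓕⁻ f : E → ℂ) x := by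
      intro x
      simp [cx]
    simp_rw [e2]
    have e3 := integral_re i1
    simp only [RCLike.re_to_complex] at e3
    rw [← e3]
    refine integral_congr_ae (Eventually.of_forall fun x => ?_)
    simp

theorem T_norm (u : E → ℝ) (hu : MemLp u 2 volume) :
    Integrable (fun ξ => ‖(T u hu : E → ℂ) ξ‖ ^ 2) ∧
      ∫ x, u x ^ 2 = ∫ ξ, ‖(T u hu : E → ℂ) ξ‖ ^ 2 := by
  have i1 := (memLp_two_iff_integrable_sq_norm (Lp.memLp (T u hu)).1).1 (Lp.memLp (T u hu))
  refine ⟨i1, ?_⟩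
  have e1 : inner ℂ (T u hu) (T u hu)
      = inner ℂ ((memLp_cx hu).toLp (cx u)) ((memLp_cx hu).toLp (cx u)) := Lp.inner_fourier_eq _ _
  rw [inner_lp _ _ _ _ (memLp_cx hu).coeFn_toLp (memLp_cx hu).coeFn_toLp,
    inner_lp _ _ _ _ (Filter.EventuallyEq.refl _ _) (Filter.EventuallyEq.refl _ _)] at e1
  have e2 : ∀ z : ℂ, conj z * z = ((‖z‖ ^ 2 : ℝ) : ℂ) := by
    intro z
    rw [Complex.conj_mul']
    push_cast
    rfl
  simp_rw [e2] at e1
  rw [integral_complex_ofReal, integral_complex_ofReal] at e1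
  have e3 := Complex.ofReal_injective e1
  rw [e3]
  refine integral_congr_ae (Eventually.of_forall fun x => ?_)
  simp [cx]

/-- pairing with Schwartz functions -/
theorem T_schwartz (u : E → ℝ) (hu : MemLp u 2 volume) (g : 𝓢(E, ℂ)) :
    ∫ ξ, g ξ * (T u hu : E → ℂ) ξ = ∫ x, (𝓕 g) x * (u x : ℂ) := by
  have h1 : (𝓕 (((memLp_cx hu).toLp (cx u) : Lp ℂ 2 (volume : Measure E)) : 𝓢'(E, ℂ))) g
      = ((T u hu : Lp ℂ 2 (volume : Measure E)) : 𝓢'(E, ℂ)) g := by
    rw [T, Lp.fourier_toTemperedDistribution_eq]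
  rw [TemperedDistribution.fourier_apply, Lp.toTemperedDistribution_apply,
    Lp.toTemperedDistribution_apply] at h1
  simp only [smul_eq_mul] at h1
  rw [← h1]
  refine integral_congr_ae ?_
  filter_upwards [(memLp_cx hu).coeFn_toLp] with x hx
  rw [hx]
  rfl

end Pool.Agent.Q38.LH.DATA
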