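import Pool.Agent.Q38.LH.DATA1

/-! PROJECT LH (helper63): JOB DATA, part 2: symmetry and derivatives. -/

set_option autoImplicit false

open MeasureTheory Set Filter
open scoped FourierTransform ContDiff RealInnerProductSpace ComplexConjugate ENNReal Topology SchwartzMap LineDeriv

namespace Pool.Agent.Q38.LH.DATA

open Pool.Agent.W785.QR (E conv Phi sy nl phat vel pres)
open Pool.Agent.Q63.LH
open Pool.Agent.Q38.LH.PLA

/-- the Fourier transform of a real function is hermitian -/
theorem T_herm (u : E → ℝ) (hu : MemLp u 2 volume) :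
    ∀ᵐ ξ, (T u hu : E → ℂ) (-ξ) = conj ((T u hu : E → ℂ) ξ) := by
  have mp := MeasureTheory.Measure.measurePreserving_neg (volume : Measure E)
  have l1 : MemLp (fun ξ : E => (T u hu : E → ℂ) (-ξ)) 2 volume :=
    (Lp.memLp (T u hu)).comp_measurePreserving mp
  have l2 : MemLp (fun ξ : E => conj ((T u hu : E → ℂ) ξ)) 2 volume := (Lp.memLp (T u hu)).star
  apply ae_eq_of_integral_contDiff_smul_eq (l1.locallyIntegrable (by norm_num))
    (l2.locallyIntegrable (by norm_num))
  intro g g_smooth g_cpt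
  have hg₁ : HasCompactSupport (Complex.ofRealCLM ∘ g) := g_cpt.comp_left rfl
  have hg₂ : ContDiff ℝ ∞ (Complex.ofRealCLM ∘ g) := by fun_prop
  have hn₁ : HasCompactSupport (fun x : E => ((g (-x) : ℝ) : ℂ)) :=
    hg₁.comp_homeomorph (Homeomorph.neg E)
  have hn₂ : ContDiff ℝ ∞ (fun x : E => ((g (-x) : ℝ) : ℂ)) :=
    hg₂.comp (contDiff_neg (𝕜 := ℝ) (F := E) (n := ∞))
  have k1 := T_schwartz u hu (hg₁.toSchwartzMap hg₂)
  have k2 := T_schwartz u hu (hn₁.toSchwartzMap hn₂)
  have e1 : ∫ x, g x • (T u hu : E → ℂ) (-x) = ∫ x, ((g (-x) : ℝ) : ℂ) * (T u hu : E → ℂ) x := by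
    rw [← integral_neg_eq_self (fun x : E => ((g (-x) : ℝ) : ℂ) * (T u hu : E → ℂ) x)]
    refine integral_congr_ae (Eventually.of_forall fun x => ?_)
    simp
  have e2 : ∫ x, g x • conj ((T u hu : E → ℂ) x)
      = conj (∫ x, ((g x : ℝ) : ℂ) * (T u hu : E → ℂ) x) := by
    rw [← integral_conj]
    refine integral_congr_ae (Eventually.of_forall fun x => ?_)
    simp
  rw [e1, e2]
  have k1' : ∫ x, ((g x : ℝ) : ℂ) * (T u hu : E → ℂ) x
      = ∫ x, (𝓕 (fun y : E => ((g y : ℝ) : ℂ)) : E → ℂ) x * (u x : ℂ) := by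
    have c1 : ((hg₁.toSchwartzMap hg₂ : 𝓢(E, ℂ)) : E → ℂ) = fun y => ((g y : ℝ) : ℂ) := rfl
    rw [SchwartzMap.fourier_coe, c1] at k1
    exact k1
  have k2' : ∫ x, ((g (-x) : ℝ) : ℂ) * (T u hu : E → ℂ) x
      = ∫ x, (𝓕 (fun y : E => ((g (-y) : ℝ) : ℂ)) : E → ℂ) x * (u x : ℂ) := by
    have c1 : ((hn₁.toSchwartzMap hn₂ : 𝓢(E, ℂ)) : E → ℂ) = fun y => ((g (-y) : ℝ) : ℂ) := rfl
    rw [SchwartzMap.fourier_coe, c1] at k2
    exact k2
  rw [k1', k2', ← integral_conj]
  refine integral_congr_ae (Eventually.of_forall fun x => ?_)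
  have key : (𝓕 (fun y : E => ((g (-y) : ℝ) : ℂ)) : E → ℂ) x
      = conj ((𝓕 (fun y : E => ((g y : ℝ) : ℂ)) : E → ℂ) x) := by
    rw [Real.fourier_eq', Real.fourier_eq', ← integral_conj,
      ← integral_neg_eq_self (fun v : E => Complex.exp (↑(-2 * Real.pi * ⟪v, x⟫) * Complex.I) •
        ((g (-v) : ℝ) : ℂ))]
    refine integral_congr_ae (Eventually.of_forall fun v => ?_)
    simp only [smul_eq_mul, map_mul, Complex.conj_ofReal, neg_neg, ← Complex.exp_conj,
      Complex.conj_I, inner_neg_left]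
    congr 2
    push_cast
    ring
  simp only [key, map_mul, Complex.conj_ofReal]

/-- extension of the weak derivative to smooth square integrable functions -/
theorem weak_ext (u g : E → ℝ) (hu : MemLp u 2 volume) (hg : MemLp g 2 volume) (e : E)
    (H : ∀ φ : E → ℝ, ContDiff ℝ ∞ φ → HasCompactSupport φ →
      ∫ x, fderiv ℝ φ x e * u x = -∫ x, φ x * g x)
    (h : E → ℝ) (hs : ContDiff ℝ ∞ h) (h2 : MemLp h 2 volume)
    (h2' : MemLp (fun x => fderiv ℝ h x e) 2 volume) :
    ∫ x, fderiv ℝ h x e * u x = -∫ x, h x * g x := by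
  let χ : ContDiffBump (0 : E) := ⟨1, 2, one_pos, one_lt_two⟩
  have χs : ContDiff ℝ ∞ (χ : E → ℝ) := χ.contDiff
  have χc : HasCompactSupport (χ : E → ℝ) := χ.hasCompactSupport
  obtain ⟨C, hC⟩ : ∃ C, ∀ x, ‖fderiv ℝ (χ : E → ℝ) x‖ ≤ C :=
    (χs.continuous_fderiv (by simp)).bounded_above_of_compact_support (χc.fderiv ℝ)
  have hC0 : 0 ≤ C := le_trans (norm_nonneg _) (hC 0)
  have one0 : (χ : E → ℝ) =ᶠ[𝓝 0] 1 := χ.eventuallyEq_one
  let c : ℕ → ℝ := fun n => 1 / ((n : ℝ) + 1)
  have cpos : ∀ n, 0 < c n := fun n => by positivity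
  have cle : ∀ n, c n ≤ 1 := fun n => by
    simp only [c]
    rw [div_le_one (by positivity)]
    have : (0 : ℝ) ≤ n := Nat.cast_nonneg n
    linarith
  have climit : Tendsto c atTop (𝓝 0) := tendsto_one_div_add_atTop_nhds_zero_nat
  let χn : ℕ → E → ℝ := fun n x => χ (c n • x)
  have χns : ∀ n, ContDiff ℝ ∞ (χn n) := fun n => χs.comp (contDiff_const_smul (c n))
  have χnc : ∀ n, HasCompactSupport (χn n) := fun n =>
    χc.comp_homeomorph (Homeomorph.smulOfNeZero (c n) (cpos n).ne')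
  have χd : ∀ n x, fderiv ℝ (χn n) x e = c n * fderiv ℝ (χ : E → ℝ) (c n • x) e := by
    intro n x
    have hd : HasFDerivAt (χn n) ((fderiv ℝ (χ : E → ℝ) (c n • x)).comp
        (c n • ContinuousLinearMap.id ℝ E)) x := by
      apply HasFDerivAt.comp x ((χs.differentiable (by simp)) (c n • x)).hasFDerivAt
      exact (hasFDerivAt_id x).const_smul (c n)
    rw [hd.fderiv]
    simp
  have key : ∀ n, ∫ x, (fderiv ℝ (χn n) x e * h x + χn n x * fderiv ℝ h x e) * u x
      = -∫ x, χn n x * h x * g x := by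
    intro n
    have := H (fun x => χn n x * h x) ((χns n).mul hs) ((χnc n).mul_right)
    rw [← this]
    refine integral_congr_ae (Eventually.of_forall fun x => ?_)
    have hd := (((χns n).differentiable (by simp)) x).hasFDerivAt.mul
      ((hs.differentiable (by simp)) x).hasFDerivAt
    have e1 : fderiv ℝ (fun x => χn n x * h x) x
        = χn n x • fderiv ℝ h x + h x • fderiv ℝ (χn n) x := hd.fderiv
    beta_reduce
    rw [e1]
    simp only [add_apply, smul_apply, smul_eq_mul]
    ring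
  have i1 : Integrable (fun x => fderiv ℝ h x e * u x) := h2'.integrable_mul hu
  have i2 : Integrable (fun x => h x * u x) := h2.integrable_mul hu
  have i3 : Integrable (fun x => h x * g x) := h2.integrable_mul hg
  have near : ∀ x : E, ∀ᶠ n in atTop, χn n =ᶠ[𝓝 x] 1 := by
    intro x
    have t1 : Tendsto (fun n => c n • x) atTop (𝓝 0) := by
      simpa using climit.smul_const x
    have t2 := t1.eventually one0.eventually_nhds
    filter_upwards [t2] with n hn
    have hcont : Tendsto (fun y : E => c n • y) (𝓝 x) (𝓝 (c n • x)) :=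
      (continuous_const_smul (c n)).tendsto x
    exact hcont.eventually hn
  have lim1 : Tendsto (fun n => ∫ x, (fderiv ℝ (χn n) x e * h x + χn n x * fderiv ℝ h x e) * u x)
      atTop (𝓝 (∫ x, fderiv ℝ h x e * u x)) := by
    apply tendsto_integral_of_dominated_convergence
      (fun x => C * ‖e‖ * ‖h x * u x‖ + ‖fderiv ℝ h x e * u x‖)
    · intro n
      have c1 : Continuous (fun x => fderiv ℝ (χn n) x e) :=
        ((χns n).continuous_fderiv (by simp)).clm_apply continuous_const
      have c2 : Continuous (fun x => fderiv ℝ h x e) :=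
        (hs.continuous_fderiv (by simp)).clm_apply continuous_const
      exact (((c1.mul hs.continuous).add ((χns n).continuous.mul c2)).aestronglyMeasurable).mul
        hu.1
    · exact (i2.norm.const_mul _).add i1.norm
    · intro n
      refine Eventually.of_forall fun x => ?_
      rw [add_mul]
      refine (norm_add_le _ _).trans (add_le_add ?_ ?_)
      · rw [mul_assoc, norm_mul]
        refine mul_le_mul_of_nonneg_right ?_ (norm_nonneg _)
        rw [χd, norm_mul, Real.norm_eq_abs, abs_of_pos (cpos n)]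
        calc c n * ‖(fderiv ℝ (χ : E → ℝ) (c n • x)) e‖
            ≤ 1 * (‖fderiv ℝ (χ : E → ℝ) (c n • x)‖ * ‖e‖) :=
              mul_le_mul (cle n) (ContinuousLinearMap.le_opNorm _ _) (norm_nonneg _) zero_le_one
          _ ≤ C * ‖e‖ := by
              rw [one_mul]
              exact mul_le_mul_of_nonneg_right (hC _) (norm_nonneg _)
      · rw [mul_assoc, norm_mul (χn n x)]
        have : ‖χn n x‖ ≤ 1 := by
          rw [Real.norm_eq_abs, abs_of_nonneg χ.nonneg]
          exact χ.le_one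
        calc ‖χn n x‖ * ‖fderiv ℝ h x e * u x‖ ≤ 1 * ‖fderiv ℝ h x e * u x‖ :=
              mul_le_mul_of_nonneg_right this (norm_nonneg _)
          _ = _ := one_mul _
    · refine Eventually.of_forall fun x => ?_
      refine tendsto_const_nhds.congr' ?_
      filter_upwards [near x] with n hn
      have d0 : fderiv ℝ (χn n) x = 0 := by
        rw [hn.fderiv_eq]
        simp [Pi.one_def]
      have v1 : χn n x = 1 := hn.eq_of_nhds
      rw [d0, v1]
      simp
  have lim2 : Tendsto (fun n => -∫ x, χn n x * h x * g x) atTop (𝓝 (-∫ x, h x * g x)) := by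
    apply Tendsto.neg
    apply tendsto_integral_of_dominated_convergence (fun x => ‖h x * g x‖)
    · intro n
      exact (((χns n).continuous.mul hs.continuous).aestronglyMeasurable).mul hg.1
    · exact i3.norm
    · intro n
      refine Eventually.of_forall fun x => ?_
      rw [mul_assoc, norm_mul (χn n x)]
      have : ‖χn n x‖ ≤ 1 := by
        rw [Real.norm_eq_abs, abs_of_nonneg χ.nonneg]
        exact χ.le_one
      calc ‖χn n x‖ * ‖h x * g x‖ ≤ 1 * ‖h x * g x‖ :=
            mul_le_mul_of_nonneg_right this (norm_nonneg _)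
        _ = _ := one_mul _
    · refine Eventually.of_forall fun x => ?_
      refine tendsto_const_nhds.congr' ?_
      filter_upwards [near x] with n hn
      have v1 : χn n x = 1 := hn.eq_of_nhds
      rw [v1, one_mul]
  refine tendsto_nhds_unique lim1 (lim2.congr fun n => (key n).symm)

/-- Fourier transform of a weak derivative -/
theorem T_deriv (u g : E → ℝ) (hu : MemLp u 2 volume) (hg : MemLp g 2 volume) (e : E)
    (H : ∀ φ : E → ℝ, ContDiff ℝ ∞ φ → HasCompactSupport φ →
      ∫ x, fderiv ℝ φ x e * u x = -∫ x, φ x * g x) :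
    ∀ᵐ ξ, (T g hg : E → ℂ) ξ = 2 * (Real.pi : ℂ) * Complex.I * ((⟪ξ, e⟫ : ℝ) : ℂ)
      * (T u hu : E → ℂ) ξ := by
  -- the complex form of the weak derivative
  have Hc : ∀ h : 𝓢(E, ℂ), ∫ x, (∂_{e} h) x * (u x : ℂ) = -∫ x, h x * (g x : ℂ) := by
    intro h
    have hs : ContDiff ℝ ∞ h := h.smooth _
    have hd : ∀ x, (∂_{e} h) x = fderiv ℝ h x e := fun x => by
      rw [SchwartzMap.lineDerivOp_apply_eq_fderiv]
    have m1 : MemLp (h : E → ℂ) 2 volume := h.memLp 2
    have m2 : MemLp (fun x => (∂_{e} h) x) 2 volume := (∂_{e} h).memLp 2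
    have i1 : Integrable (fun x => (∂_{e} h) x * (u x : ℂ)) := m2.integrable_mul (memLp_cx hu)
    have i2 : Integrable (fun x => h x * (g x : ℂ)) := m1.integrable_mul (memLp_cx hg)
    have fd : ∀ (L : ℂ →L[ℝ] ℝ) x, fderiv ℝ (fun y => L (h y)) x e = L (fderiv ℝ h x e) := by
      intro L x
      have := (L.hasFDerivAt (x := h x)).comp x ((hs.differentiable (by simp)) x).hasFDerivAt
      have e1 : fderiv ℝ (fun y => L (h y)) x = L.comp (fderiv ℝ h x) := this.fderiv
      rw [e1]
      rfl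
    have Lp : ∀ L : ℂ →L[ℝ] ℝ, ∫ x, L ((∂_{e} h) x) * u x = -∫ x, L (h x) * g x := by
      intro L
      have a1 : MemLp (fun x => L (h x)) 2 volume := L.comp_memLp' m1
      have a2 : MemLp (fun x => fderiv ℝ (fun y => L (h y)) x e) 2 volume := by
        have : (fun x => fderiv ℝ (fun y => L (h y)) x e) = fun x => L ((∂_{e} h) x) := by
          funext x
          rw [fd, hd]
        rw [this]
        exact L.comp_memLp' m2
      have := weak_ext u g hu hg e H (fun y => L (h y)) (L.contDiff.comp hs) a1 a2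
      rw [← this]
      refine integral_congr_ae (Eventually.of_forall fun x => ?_)
      beta_reduce
      rw [fd, hd]
    apply Complex.ext
    · have r1 := integral_re i1
      have r2 := integral_re i2
      simp only [RCLike.re_to_complex] at r1 r2
      rw [Complex.neg_re, ← r1, ← r2]
      have := Lp Complex.reCLM
      simpa using this
    · have r1 := integral_im i1
      have r2 := integral_im i2
      simp only [RCLike.im_to_complex] at r1 r2
      rw [Complex.neg_im, ← r1, ← r2]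
      have := Lp Complex.imCLM
      simpa using this
  have l1 : LocallyIntegrable (T g hg : E → ℂ) volume :=
    (Lp.memLp (T g hg)).locallyIntegrable (by norm_num)
  have l2 : LocallyIntegrable (fun ξ : E => 2 * (Real.pi : ℂ) * Complex.I * ((⟪ξ, e⟫ : ℝ) : ℂ)
      * (T u hu : E → ℂ) ξ) volume := by
    have := ((Lp.memLp (T u hu)).locallyIntegrable (μ := volume) (by norm_num)).continuous_smul
      (g := fun ξ : E => 2 * (Real.pi : ℂ) * Complex.I * ((⟪ξ, e⟫ : ℝ) : ℂ)) (by fun_prop)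
    simpa [smul_eq_mul] using this
  apply ae_eq_of_integral_contDiff_smul_eq l1 l2
  intro φ φs φc
  have hg₁ : HasCompactSupport (Complex.ofRealCLM ∘ φ) := φc.comp_left rfl
  have hg₂ : ContDiff ℝ ∞ (Complex.ofRealCLM ∘ φ) := by fun_prop
  obtain ⟨ψ, hψ⟩ : ∃ ψ : 𝓢(E, ℂ), ψ = hg₁.toSchwartzMap hg₂ := ⟨_, rfl⟩
  have ψa : ∀ x, ψ x = ((φ x : ℝ) : ℂ) := fun x => by rw [hψ]; rfl
  have gr : (fun x : E => ((⟪x, e⟫ : ℝ) : ℂ)).HasTemperateGrowth := by fun_prop
  have gr' : (fun x : E => (⟪x, e⟫ : ℝ)).HasTemperateGrowth := by fun_prop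
  have k1 := T_schwartz g hg ψ
  obtain ⟨ψ2, hψ2⟩ : ∃ ψ2 : 𝓢(E, ℂ), ψ2 = SchwartzMap.smulLeftCLM ℂ (fun x : E => (⟪x, e⟫ : ℝ)) ψ :=
    ⟨_, rfl⟩
  have ψ2a : ∀ x, ψ2 x = ((⟪x, e⟫ : ℝ) : ℂ) * ((φ x : ℝ) : ℂ) := fun x => by
    rw [hψ2, SchwartzMap.smulLeftCLM_apply_apply gr', ψa]
    simp
  have k2 := T_schwartz u hu ψ2
  have k3 := Hc (𝓕 ψ)
  have e1 : ∫ x, φ x • (T g hg : E → ℂ) x = ∫ ξ, ψ ξ * (T g hg : E → ℂ) ξ := by
    refine integral_congr_ae (Eventually.of_forall fun x => ?_)
    simp [ψa]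
  have e2 : ∫ x, φ x • (2 * (Real.pi : ℂ) * Complex.I * ((⟪x, e⟫ : ℝ) : ℂ) * (T u hu : E → ℂ) x)
      = 2 * (Real.pi : ℂ) * Complex.I * ∫ ξ, ψ2 ξ * (T u hu : E → ℂ) ξ := by
    rw [← integral_const_mul]
    refine integral_congr_ae (Eventually.of_forall fun x => ?_)
    simp only [ψ2a, Complex.real_smul]
    ring
  rw [e1, e2, k1, k2]
  have k4 : ∫ x, (𝓕 ψ) x * (g x : ℂ) = -∫ x, (∂_{e} (𝓕 ψ)) x * (u x : ℂ) := by rw [k3, neg_neg]
  rw [k4, ← integral_const_mul, ← integral_neg]
  refine integral_congr_ae (Eventually.of_forall fun x => ?_)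
  beta_reduce
  rw [SchwartzMap.lineDerivOp_fourier_eq, hψ2, FourierTransform.fourier_smul, smul_apply,
    smul_eq_mul]
  ring

end Pool.Agent.Q38.LH.DATA
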