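import Pool.Agent.Q38.LH.DATA2

/-! PROJECT LH (helper63): JOB DATA, part 3: vector fields. -/

set_option autoImplicit false

open MeasureTheory Set Filter
open scoped FourierTransform ContDiff RealInnerProductSpace ComplexConjugate ENNReal Topology SchwartzMap LineDeriv

namespace Pool.Agent.Q38.LH.DATA

open Pool.Agent.W785.QR (E conv Phi sy nl phat vel pres)
open Pool.Agent.Q63.LH
open Pool.Agent.Q38.LH.PLA

theorem deriv_inv (f : E → ℂ) (hi : Integrable f)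
    (hi' : Integrable (fun ξ => ‖ξ‖ * ‖f ξ‖)) (x : E) :
    DifferentiableAt ℝ (𝓕⁻ f : E → ℂ) x ∧ ∀ e : E, fderiv ℝ (𝓕⁻ f : E → ℂ) x e
      = (𝓕⁻ (fun ξ : E => 2 * (Real.pi : ℂ) * Complex.I * ((⟪ξ, e⟫ : ℝ) : ℂ) * f ξ) : E → ℂ) x := by
  have h1 := Real.hasFDerivAt_fourier hi hi' (-x)
  have h2 : HasFDerivAt (𝓕⁻ f : E → ℂ) ((𝓕 (VectorFourier.fourierSMulRight (innerSL ℝ) f) (-x)).comp
      (-ContinuousLinearMap.id ℝ E)) x := by
    have h3 := h1.comp x ((hasFDerivAt_id x).neg)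
    refine h3.congr_of_eventuallyEq (Filter.Eventually.of_forall fun y => ?_)
    exact Real.fourierInv_eq_fourier_neg _ _
  refine ⟨h2.differentiableAt, fun h => ?_⟩
  have hint : Integrable (VectorFourier.fourierSMulRight (innerSL ℝ) f) := by
    refine (hi'.const_mul (2 * Real.pi * ‖(innerSL ℝ : E →L[ℝ] E →L[ℝ] ℝ)‖)).mono'
      hi.1.fourierSMulRight (Filter.Eventually.of_forall fun v => ?_)
    have := VectorFourier.norm_fourierSMulRight_le (innerSL ℝ) f v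
    rwa [← mul_assoc]
  rw [h2.fderiv]
  show (𝓕 (VectorFourier.fourierSMulRight (innerSL ℝ) f) (-x)) (-h) = _
  rw [Real.fourier_continuousLinearMap_apply hint, ← Real.fourierInv_eq_fourier_neg,
    Real.fourierInv_eq', Real.fourierInv_eq']
  refine integral_congr_ae (Filter.Eventually.of_forall fun ξ => ?_)
  have hin : ((innerSL ℝ) ξ) h = ⟪ξ, h⟫ := rfl
  simp only [VectorFourier.fourierSMulRight_apply, map_neg, smul_eq_mul, Complex.real_smul, hin]
  push_cast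
  ring

theorem inner_ee (ξ : E) (i : Fin 3) : ⟪ξ, ee i⟫ = ξ i := by
  simp [ee, EuclideanSpace.inner_single_right]

/-- components of `w` -/
def cp (w : E → E) (j : Fin 3) (x : E) : ℝ := w x j

/-- components of `G` -/
noncomputable def gp (G : E → E →L[ℝ] E) (i j : Fin 3) (x : E) : ℝ := (G x (ee i)) j

theorem cp_memLp {w : E → E} (h : MemLp w 2 volume) (j : Fin 3) : MemLp (cp w j) 2 volume :=
  (EuclideanSpace.proj (𝕜 := ℝ) j).comp_memLp' h

theorem gp_memLp {G : E → E →L[ℝ] E} (h : MemLp G 2 volume) (i j : Fin 3) :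
    MemLp (gp G i j) 2 volume :=
  ((EuclideanSpace.proj (𝕜 := ℝ) j).comp (ContinuousLinearMap.apply ℝ E (ee i))).comp_memLp' h

theorem weak_comp {w : E → E} {G : E → E →L[ℝ] E} (h : H1 w G) (i j : Fin 3) (φ : E → ℝ)
    (φs : ContDiff ℝ ∞ φ) (φc : HasCompactSupport φ) :
    ∫ x, fderiv ℝ φ x (ee i) * cp w j x = -∫ x, φ x * gp G i j x := by
  have c1 : Continuous (fun x => fderiv ℝ φ x (ee i)) :=
    (φs.continuous_fderiv (by simp)).clm_apply continuous_const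
  have c2 : HasCompactSupport (fun x => fderiv ℝ φ x (ee i)) := φc.fderiv_apply ℝ (ee i)
  have m1 : MemLp (fun x => fderiv ℝ φ x (ee i)) 2 volume := c1.memLp_of_hasCompactSupport c2
  have m2 : MemLp φ 2 volume := φs.continuous.memLp_of_hasCompactSupport φc
  have i1 : Integrable (fun x => fderiv ℝ φ x (ee i) • w x) := by
    rw [← memLp_one_iff_integrable]
    exact h.l2.smul m1
  have m3 : MemLp (fun x => G x (ee i)) 2 volume :=
    (ContinuousLinearMap.apply ℝ E (ee i)).comp_memLp' h.g2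
  have i2 : Integrable (fun x => φ x • G x (ee i)) := by
    rw [← memLp_one_iff_integrable]
    exact m3.smul m2
  have h1 := congrArg (EuclideanSpace.proj (𝕜 := ℝ) j) (h.grad φ φs φc i)
  rw [map_neg, ← ContinuousLinearMap.integral_comp_comm _ i1,
    ← ContinuousLinearMap.integral_comp_comm _ i2] at h1
  simpa [cp, gp] using h1

/-- the raw Fourier transforms -/
noncomputable def B {w : E → E} (h : MemLp w 2 volume) (j : Fin 3) : E → ℂ := T (cp w j) (cp_memLp h j)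

theorem B_meas {w : E → E} (h : MemLp w 2 volume) (j : Fin 3) : Measurable (B h j) :=
  (Lp.stronglyMeasurable (T (cp w j) (cp_memLp h j))).measurable

theorem B_deriv {w : E → E} {G : E → E →L[ℝ] E} (h : H1 w G) (i j : Fin 3) :
    ∀ᵐ ξ, (T (gp G i j) (gp_memLp h.g2 i j) : E → ℂ) ξ
      = 2 * (Real.pi : ℂ) * Complex.I * ((ξ i : ℝ) : ℂ) * B h.l2 j ξ := by
  have := T_deriv (cp w j) (gp G i j) (cp_memLp h.l2 j) (gp_memLp h.g2 i j) (ee i)
    (weak_comp h i j)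
  filter_upwards [this] with ξ hξ
  rw [hξ, inner_ee]
  rfl

theorem B_div {w : E → E} {G : E → E →L[ℝ] E} (h : H1 w G) :
    ∀ᵐ ξ : E, ∑ j, ((ξ j : ℝ) : ℂ) * B h.l2 j ξ = 0 := by
  have e0 : (∑ i, (memLp_cx (gp_memLp h.g2 i i)).toLp (cx (gp G i i)) : Lp ℂ 2 (volume : Measure E)) = 0 := by
    rw [Fin.sum_univ_three, ← MemLp.toLp_add, ← MemLp.toLp_add]
    rw [MeasureTheory.Lp.eq_zero_iff_ae_eq_zero]
    refine (MemLp.coeFn_toLp _).trans ?_
    filter_upwards [h.div] with x hx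
    rw [Fin.sum_univ_three] at hx
    simp only [Pi.add_apply, cx, gp, Pi.zero_apply]
    exact_mod_cast hx
  have e1 : ∑ i, T (gp G i i) (gp_memLp h.g2 i i) = 0 := by
    have := congrArg (Lp.fourierTransformₗᵢ E ℂ) e0
    rw [map_sum, map_zero] at this
    exact this
  rw [Fin.sum_univ_three] at e1
  have e2 : ∀ᵐ ξ : E, (T (gp G 0 0) (gp_memLp h.g2 0 0) : E → ℂ) ξ
      + (T (gp G 1 1) (gp_memLp h.g2 1 1) : E → ℂ) ξ
      + (T (gp G 2 2) (gp_memLp h.g2 2 2) : E → ℂ) ξ = 0 := by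
    rw [MeasureTheory.Lp.eq_zero_iff_ae_eq_zero] at e1
    filter_upwards [e1, Lp.coeFn_add (T (gp G 0 0) (gp_memLp h.g2 0 0)
      + T (gp G 1 1) (gp_memLp h.g2 1 1)) (T (gp G 2 2) (gp_memLp h.g2 2 2)),
      Lp.coeFn_add (T (gp G 0 0) (gp_memLp h.g2 0 0)) (T (gp G 1 1) (gp_memLp h.g2 1 1))]
      with ξ h1 h2 h3
    rw [h2] at h1
    simp only [Pi.add_apply, Pi.zero_apply] at h1
    rw [h3] at h1
    exact h1
  filter_upwards [e2, B_deriv h 0 0, B_deriv h 1 1, B_deriv h 2 2] with ξ h1 h2 h3 h4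
  rw [h2, h3, h4] at h1
  rw [Fin.sum_univ_three]
  have : (2 * (Real.pi : ℂ) * Complex.I) * (((ξ 0 : ℝ) : ℂ) * B h.l2 0 ξ
      + ((ξ 1 : ℝ) : ℂ) * B h.l2 1 ξ + ((ξ 2 : ℝ) : ℂ) * B h.l2 2 ξ) = 0 := by
    rw [← h1]; ring
  rcases mul_eq_zero.1 this with h5 | h5
  · exact absurd h5 (by simp [Real.pi_ne_zero])
  · exact h5

/-! ### the null set -/

/-- the good frequencies -/
def S {w : E → E} (h : MemLp w 2 volume) : Set E :=
  {ξ | (∀ j, B h j (-ξ) = conj (B h j ξ)) ∧ ∑ j, ((ξ j : ℝ) : ℂ) * B h j ξ = 0}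

theorem S_meas {w : E → E} (h : MemLp w 2 volume) : MeasurableSet (S h) := by
  have m1 : MeasurableSet {ξ : E | ∀ j, B h j (-ξ) = conj (B h j ξ)} := by
    rw [Set.ofPred_forall]
    refine MeasurableSet.iInter fun j => ?_
    exact measurableSet_eq_fun ((B_meas h j).comp measurable_neg)
      (Complex.continuous_conj.measurable.comp (B_meas h j))
  have m2 : MeasurableSet {ξ : E | ∑ j, ((ξ j : ℝ) : ℂ) * B h j ξ = 0} := by
    refine measurableSet_eq_fun (Finset.measurable_sum _ fun j _ => ?_) measurable_const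
    refine Measurable.mul ?_ (B_meas h j)
    have : Continuous fun ξ : E => ((ξ j : ℝ) : ℂ) := by fun_prop
    exact this.measurable
  exact m1.inter m2

theorem S_ae {w : E → E} {G : E → E →L[ℝ] E} (h : H1 w G) : ∀ᵐ ξ, ξ ∈ S h.l2 := by
  have h1 : ∀ᵐ ξ, ∀ j, B h.l2 j (-ξ) = conj (B h.l2 j ξ) := by
    rw [ae_all_iff]
    intro j
    exact T_herm (cp w j) (cp_memLp h.l2 j)
  filter_upwards [h1, B_div h] with ξ a b
  exact ⟨a, b⟩

/-- the symmetric set of good frequencies -/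
def S' {w : E → E} (h : MemLp w 2 volume) : Set E := S h ∩ {ξ | -ξ ∈ S h}

theorem S'_meas {w : E → E} (h : MemLp w 2 volume) : MeasurableSet (S' h) :=
  (S_meas h).inter (measurable_neg (S_meas h))

theorem S'_ae {w : E → E} {G : E → E →L[ℝ] E} (h : H1 w G) : ∀ᵐ ξ, ξ ∈ S' h.l2 := by
  have h1 := S_ae h
  have h2 : ∀ᵐ ξ : E, -ξ ∈ S h.l2 :=
    (Measure.measurePreserving_neg (volume : Measure E)).quasiMeasurePreserving.ae h1
  filter_upwards [h1, h2] with ξ a b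
  exact ⟨a, b⟩

theorem S'_neg {w : E → E} (h : MemLp w 2 volume) (ξ : E) : -ξ ∈ S' h ↔ ξ ∈ S' h := by
  simp only [S', mem_inter_iff, Set.mem_ofPred_eq, neg_neg]
  exact and_comm

/-- the Fourier transform -/
noncomputable def b {w : E → E} (h : MemLp w 2 volume) (j : Fin 3) : E → ℂ := (S' h).indicator (B h j)

theorem b_meas {w : E → E} (h : MemLp w 2 volume) (j : Fin 3) : Measurable (b h j) :=
  (B_meas h j).indicator (S'_meas h)

theorem b_ae {w : E → E} {G : E → E →L[ℝ] E} (h : H1 w G) (j : Fin 3) :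
    b h.l2 j =ᵐ[volume] B h.l2 j := by
  filter_upwards [S'_ae h] with ξ hξ
  exact indicator_of_mem hξ _

theorem b_herm {w : E → E} (h : MemLp w 2 volume) (j : Fin 3) (ξ : E) :
    b h j (-ξ) = conj (b h j ξ) := by
  by_cases hξ : ξ ∈ S' h
  · rw [b, indicator_of_mem ((S'_neg h ξ).2 hξ), indicator_of_mem hξ]
    exact hξ.1.1 j
  · have : -ξ ∉ S' h := fun h' => hξ ((S'_neg h ξ).1 h')
    rw [b, indicator_of_notMem this, indicator_of_notMem hξ, map_zero]

theorem b_div {w : E → E} (h : MemLp w 2 volume) (ξ : E) : ∑ j, ((ξ j : ℝ) : ℂ) * b h j ξ = 0 := by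
  by_cases hξ : ξ ∈ S' h
  · rw [← hξ.1.2]
    refine Finset.sum_congr rfl fun j _ => ?_
    rw [b, indicator_of_mem hξ]
  · refine Finset.sum_eq_zero fun j _ => ?_
    rw [b, indicator_of_notMem hξ, mul_zero]

/-! ### Norms -/

theorem b_sq {w : E → E} {G : E → E →L[ℝ] E} (h : H1 w G) (j : Fin 3) :
    Integrable (fun ξ => ‖b h.l2 j ξ‖ ^ 2) ∧ ∫ x, cp w j x ^ 2 = ∫ ξ, ‖b h.l2 j ξ‖ ^ 2 := by
  have h1 := T_norm (cp w j) (cp_memLp h.l2 j)
  have h2 : (fun ξ => ‖b h.l2 j ξ‖ ^ 2) =ᵐ[volume] fun ξ => ‖B h.l2 j ξ‖ ^ 2 := by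
    filter_upwards [b_ae h j] with ξ hξ
    rw [hξ]
  exact ⟨h1.1.congr h2.symm, h1.2.trans (integral_congr_ae h2.symm)⟩

theorem g_sq {w : E → E} {G : E → E →L[ℝ] E} (h : H1 w G) (i j : Fin 3) :
    Integrable (fun ξ : E => 4 * Real.pi ^ 2 * (ξ i ^ 2 * ‖b h.l2 j ξ‖ ^ 2)) ∧
      ∫ x, gp G i j x ^ 2 = ∫ ξ : E, 4 * Real.pi ^ 2 * (ξ i ^ 2 * ‖b h.l2 j ξ‖ ^ 2) := by
  have h1 := T_norm (gp G i j) (gp_memLp h.g2 i j)
  have h2 : (fun ξ : E => 4 * Real.pi ^ 2 * (ξ i ^ 2 * ‖b h.l2 j ξ‖ ^ 2)) =ᵐ[volume]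
      fun ξ => ‖(T (gp G i j) (gp_memLp h.g2 i j) : E → ℂ) ξ‖ ^ 2 := by
    filter_upwards [b_ae h j, B_deriv h i j] with ξ h3 h4
    rw [h4, h3]
    simp only [norm_mul, Complex.norm_I, Complex.norm_real, Complex.norm_ofNat, Real.norm_eq_abs,
      mul_one, mul_pow, sq_abs]
    ring
  exact ⟨h1.1.congr h2.symm, h1.2.trans (integral_congr_ae h2.symm)⟩

theorem norm_sq_E (x : E) : ‖x‖ ^ 2 = ∑ j, x j ^ 2 := by
  rw [EuclideanSpace.real_norm_sq_eq]

end Pool.Agent.Q38.LH.DATA
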