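import Pool.Agent.Q63.LH.Stm2

/-! PROJECT LH (helper63): JOB PLA (Plancherel and Parseval for the inverse Fourier integral). -/

set_option autoImplicit false

open MeasureTheory Set Filter
open scoped FourierTransform ContDiff RealInnerProductSpace ComplexConjugate ENNReal Topology SchwartzMap

namespace Pool.Agent.Q38.LH.PLA

open Pool.Agent.W785.QR (E conv Phi sy nl phat vel pres)
open Pool.Agent.Q63.LH

/-- For `f ∈ L¹ ∩ L²` the inverse `L²` Fourier transform is the inverse Fourier integral. -/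
theorem inv_ae (f : E → ℂ) (hf : Integrable f) (hf2 : MemLp f 2) :
    ((𝓕⁻ (hf2.toLp f) : Lp ℂ 2 (volume : Measure E)) : E → ℂ) =ᵐ[volume] (𝓕⁻ f : E → ℂ) := by
  obtain ⟨F2, hF2⟩ : ∃ F2 : Lp ℂ 2 (volume : Measure E), F2 = hf2.toLp f := ⟨_, rfl⟩
  obtain ⟨G, hG⟩ : ∃ G : Lp ℂ 2 (volume : Measure E), G = 𝓕⁻ F2 := ⟨_, rfl⟩
  have hF2ae : (F2 : E → ℂ) =ᵐ[volume] f := by rw [hF2]; exact hf2.coeFn_toLp
  have key : ∀ g : 𝓢(E, ℂ), ∫ x, g x • (G x) = ∫ x, g x • (𝓕⁻ f : E → ℂ) x := by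
    intro g
    have h1 : (𝓕⁻ (F2 : 𝓢'(E, ℂ))) g = ((𝓕⁻ F2 : Lp ℂ 2 (volume : Measure E)) : 𝓢'(E, ℂ)) g := by
      rw [Lp.fourierInv_toTemperedDistribution_eq]
    rw [TemperedDistribution.fourierInv_apply, Lp.toTemperedDistribution_apply,
      Lp.toTemperedDistribution_apply, ← hG] at h1
    rw [← h1]
    have h2 : ∫ x, (𝓕⁻ g) x • F2 x = ∫ x, (𝓕⁻ g) x • f x := by
      apply integral_congr_ae
      filter_upwards [hF2ae] with x hx
      rw [hx]
    rw [h2]
    have hc : Continuous fun p : E × E => ((-innerₗ E) p.1) p.2 := by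
      show Continuous fun p : E × E => -⟪p.1, p.2⟫
      exact continuous_inner.neg
    have h3 := VectorFourier.integral_fourierIntegral_smul_eq_flip (L := -innerₗ E)
      (μ := (volume : Measure E)) (ν := (volume : Measure E))
      Real.continuous_fourierChar hc g.integrable hf
    have h4 : (-innerₗ E).flip = -innerₗ E := by
      ext x y
      simp [real_inner_comm]
    rw [h4] at h3
    have h5 : ((𝓕⁻ g : 𝓢(E, ℂ)) : E → ℂ) = (𝓕⁻ (g : E → ℂ) : E → ℂ) := by
      rw [SchwartzMap.fourierInv_coe]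
    rw [h5]
    exact h3
  have hGae : (G : E → ℂ) =ᵐ[volume] (𝓕⁻ f : E → ℂ) := by
    have hc : Continuous fun p : E × E => ((-innerₗ E) p.1) p.2 := by
      show Continuous fun p : E × E => -⟪p.1, p.2⟫
      exact continuous_inner.neg
    have hcont : Continuous (𝓕⁻ f : E → ℂ) :=
      VectorFourier.fourierIntegral_continuous Real.continuous_fourierChar hc hf
    apply ae_eq_of_integral_contDiff_smul_eq
    · exact (Lp.memLp G).locallyIntegrable (by norm_num)
    · exact hcont.locallyIntegrable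
    · intro g g_smooth g_cpt
      have hg₁ : HasCompactSupport (Complex.ofRealCLM ∘ g) := g_cpt.comp_left rfl
      have hg₂ : ContDiff ℝ ∞ (Complex.ofRealCLM ∘ g) := by fun_prop
      have := key (hg₁.toSchwartzMap hg₂)
      simpa using this
  rw [← hF2, ← hG]
  exact hGae

theorem inner_inv (f g : Lp ℂ 2 (volume : Measure E)) :
    inner ℂ (𝓕⁻ f : Lp ℂ 2 (volume : Measure E)) (𝓕⁻ g : Lp ℂ 2 (volume : Measure E)) = inner ℂ f g :=
  (Lp.fourierTransformₗᵢ E ℂ).symm.inner_map_map f g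

theorem inner_lp (f g : Lp ℂ 2 (volume : Measure E)) (f' g' : E → ℂ)
    (hf : (f : E → ℂ) =ᵐ[volume] f') (hg : (g : E → ℂ) =ᵐ[volume] g') :
    inner ℂ f g = ∫ x, conj (f' x) * g' x := by
  rw [L2.inner_def]
  apply integral_congr_ae
  filter_upwards [hf, hg] with x h1 h2
  rw [h1, h2, RCLike.inner_apply, mul_comm]

theorem proof_pla : S_PLA := by
  intro f g hf hg hf2 hg2
  have mf : MemLp f 2 := (memLp_two_iff_integrable_sq_norm hf.1).2 hf2
  have mg : MemLp g 2 := (memLp_two_iff_integrable_sq_norm hg.1).2 hg2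
  have h1 := inv_ae f hf mf
  have h2 := inv_ae g hg mg
  refine ⟨(memLp_congr_ae h1).1 (Lp.memLp _), ?_⟩
  rw [← inner_lp _ _ _ _ h1 h2, inner_inv, inner_lp _ _ _ _ mf.coeFn_toLp mg.coeFn_toLp]

end Pool.Agent.Q38.LH.PLA
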